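import Pool.Agent.P8H70.TR.Stm

/-!
# Project TR, package PAIR: Parseval and the substitution `ω ↦ j ω`
-/

set_option autoImplicit false

open Complex MeasureTheory Finset ComplexConjugate

namespace Pool.Agent.P8H21.TR.Pair

open Pool.Agent.P8H70.TR

lemma orth (j k : ℕ) : ∫ t in (0:ℝ)..(2*Real.pi),
    cexp (((j * t : ℝ) : ℂ) * I) * conj (cexp (((k * t : ℝ) : ℂ) * I)) =
      if j = k then ((2 * Real.pi : ℝ) : ℂ) else 0 := by
  have h1 : ∀ t : ℝ, cexp (((j * t : ℝ) : ℂ) * I) * conj (cexp (((k * t : ℝ) : ℂ) * I)) =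
      cexp ((((j:ℂ) - k) * I) * t) := by
    intro t
    rw [← Complex.exp_conj, ← Complex.exp_add]
    congr 1
    simp only [map_mul, Complex.conj_ofReal, Complex.conj_I]
    push_cast
    ring
  simp_rw [h1]
  split_ifs with h
  · subst h
    simp
  · have hne : ((j:ℂ) - k) * I ≠ 0 :=
      mul_ne_zero (sub_ne_zero.2 (by exact_mod_cast h)) I_ne_zero
    rw [integral_exp_mul_complex hne]
    have h2 : cexp (((j:ℂ) - k) * I * ((2 * Real.pi : ℝ) : ℂ)) = 1 := by
      have := Complex.exp_int_mul_two_pi_mul_I ((j:ℤ) - (k:ℤ))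
      rw [← this]
      congr 1
      push_cast
      ring
    rw [h2]
    simp

lemma parseval (n : ℕ) (a c : ℕ → ℂ) :
    ∫ t in (0:ℝ)..(2*Real.pi), tp n a t * conj (tp n c t) =
      2 * Real.pi * ∑ j ∈ range (n+1), a j * conj (c j) := by
  have h1 : ∀ t : ℝ, tp n a t * conj (tp n c t) = ∑ j ∈ range (n+1), ∑ k ∈ range (n+1),
      (a j * conj (c k)) *
        (cexp (((j * t : ℝ) : ℂ) * I) * conj (cexp (((k * t : ℝ) : ℂ) * I))) := by
    intro t
    unfold tp
    rw [map_sum, Finset.sum_mul_sum]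
    refine Finset.sum_congr rfl fun j _ => Finset.sum_congr rfl fun k _ => ?_
    rw [map_mul]
    ring
  have hc : ∀ j k : ℕ, Continuous (fun t : ℝ => (a j * conj (c k)) *
        (cexp (((j * t : ℝ) : ℂ) * I) * conj (cexp (((k * t : ℝ) : ℂ) * I)))) := by
    intro j k
    fun_prop
  simp_rw [h1]
  rw [intervalIntegral.integral_finsetSum
    (fun j _ => (continuous_finsetSum _ (fun k _ => hc j k)).intervalIntegrable _ _)]
  rw [Finset.mul_sum]
  refine Finset.sum_congr rfl fun j hj => ?_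
  rw [intervalIntegral.integral_finsetSum (fun k _ => (hc j k).intervalIntegrable _ _)]
  simp_rw [intervalIntegral.integral_const_mul, orth]
  rw [Finset.sum_eq_single j]
  · rw [if_pos rfl]
    push_cast
    ring
  · intro k _ hk
    rw [if_neg (Ne.symm hk), mul_zero]
  · intro h
    exact absurd hj h

/-- the substitution `ω ↦ j ω`. -/
lemma sub (q : ℕ) [NeZero q] (hq : q.Prime) (n : ℕ) (hn : n < q) (k d : ℕ) (J : Finset ℕ)
    (hJ : ∀ j ∈ J, 1 ≤ j ∧ j ≤ n) (g : (Fin k → ZMod q) → ℂ) (j : ℕ) (hj : j ∈ J) :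
    ∑ ω : Fin k → ZMod q, g (mu q j ω) * conj (Psi q d (mu q j ω)) =
      ∑ ω : Fin k → ZMod q, g ω * conj (Psi q d ω) := by
  have : Fact q.Prime := ⟨hq⟩
  have hj0 : (j : ZMod q) ≠ 0 := by
    rw [Ne, ZMod.natCast_eq_zero_iff]
    intro hdvd
    have := Nat.le_of_dvd (by have := (hJ j hj).1; omega) hdvd
    have := (hJ j hj).2
    omega
  have hbij : Function.Bijective (fun ω : Fin k → ZMod q => mu q j ω) := by
    constructor
    · intro x y hxy
      funext i
      have := congrFun hxy i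
      exact mul_left_cancel₀ hj0 this
    · intro y
      refine ⟨fun i => (j : ZMod q)⁻¹ * y i, ?_⟩
      funext i
      show (j : ZMod q) * ((j : ZMod q)⁻¹ * y i) = y i
      rw [mul_inv_cancel_left₀ hj0]
  exact Function.Bijective.sum_comp hbij (fun ω => g ω * conj (Psi q d ω))

/-- package PAIR. -/
theorem pair : S_PAIR := by
  classical
  intro q _ n k d J hq hn hJ g b hb
  have hJn : J ⊆ range (n + 1) := by
    intro j hj
    rw [Finset.mem_range]
    have := (hJ j hj).2
    omega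
  have h1 : ∀ ω : Fin k → ZMod q, ∫ t in (0 : ℝ)..(2 * Real.pi), tp n (fun j => b j ω) t *
      conj (tp n (fun j => if j ∈ J then Psi q d (mu q j ω) else 0) t) =
      2 * Real.pi * ∑ j ∈ J, g (mu q j ω) * conj (Psi q d (mu q j ω)) := by
    intro ω
    rw [parseval]
    congr 1
    rw [← Finset.sum_subset hJn]
    · refine Finset.sum_congr rfl fun j hj => ?_
      rw [if_pos hj, hb j hj ω]
    · intro j _ hj
      rw [if_neg hj, map_zero, mul_zero]
  simp_rw [h1]
  have key : ∑ j ∈ J, ∑ ω : Fin k → ZMod q, g (mu q j ω) * conj (Psi q d (mu q j ω)) =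
      (J.card : ℂ) * ∑ ω : Fin k → ZMod q, g ω * conj (Psi q d ω) := by
    rw [← nsmul_eq_mul, ← Finset.sum_const]
    refine Finset.sum_congr rfl fun j hj => ?_
    exact sub q hq n hn k d J hJ g j hj
  rw [← Finset.mul_sum, Finset.sum_comm, key, ← mul_assoc]

end Pool.Agent.P8H21.TR.Pair
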